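import Pool.Agent.P.MP_d49585_lc.Main

theorem Pool.Agent.Results.MP_d49585_lc.NonRegular.result :
    ∃ F : Finset (List (Fin 5)), ¬ Language.IsRegular (T := Fin 5)
      (⋂₀ {H : Set (List (Fin 5)) | (F : Set (List (Fin 5))) ⊆ H ∧ ∀ v γ δ ν : List (Fin 5),
        v ++ ν ∈ H → v ++ γ ++ ν ∈ H → v ++ δ ++ ν ∈ H → v ++ γ ++ δ ++ ν ∈ H}) :=
  Pool.Agent.P.MP_d49585_lc.main
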