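import Pool.Agent.P.MP_d49585_lc.Undec

theorem Pool.Agent.Results.MP_d49585_lc.Undecidable.result :
    ∃ (F : Finset (List (Fin 2))) (k : ℕ) (R : Language (Fin k))
      (g : Fin k → List (Fin 2)) (h : Fin k → List (Fin k)),
      R.IsRegular ∧ ¬ ComputablePred fun x : List (Fin k) => ∃ w ∈ R,
        w.flatMap g ∈ ⋂₀ {H : Set (List (Fin 2)) | (F : Set (List (Fin 2))) ⊆ H ∧
          ∀ v γ δ ν : List (Fin 2),
            v ++ ν ∈ H → v ++ γ ++ ν ∈ H → v ++ δ ++ ν ∈ H → v ++ γ ++ δ ++ ν ∈ H} ∧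
        w.flatMap h = x :=
  Pool.Agent.P.MP_d49585_lc.U.main
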